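import Pool.Agent.Y811.PC.Stm

set_option autoImplicit false

/-!
# The orbit at the point `i (2π - κ)`
-/

namespace Pool.Agent.Y70.PC

open Complex Metric Set Filter Topology Pool.Agent.H712R2
open Pool.Agent.Y811.PC

theorem P_add (d m a : ℕ) (c : ℂ) : P d (a + m) c = G d m c (P d a c) := by
  unfold P G
  rw [Nat.add_comm a m, Function.iterate_add_apply]

/-- large values of `1 / s` are taken at small points only -/
theorem small_of_large {q : ℕ} {u σ : ℂ} {c2 τ k K₁ : ℝ} (hc2 : 0 < c2) (hτ : 0 < τ)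
    (hK₁ : 2 / (c2 * τ ^ q) < K₁) (hk : K₁ ≤ k) (hs : ‖u‖ ^ q / 2 ≤ ‖σ‖)
    (h : c2 * k ≤ ‖σ⁻¹‖) : ‖u‖ ≤ τ := by
  by_contra hcon
  push Not at hcon
  have h1 : τ ^ q ≤ ‖u‖ ^ q := pow_le_pow_left₀ hτ.le hcon.le q
  have h2 : 0 < τ ^ q := pow_pos hτ q
  have h3 : 0 < ‖σ‖ := by linarith
  rw [norm_inv] at h
  have h4 : c2 * k * ‖σ‖ ≤ 1 := by
    calc c2 * k * ‖σ‖ ≤ ‖σ‖⁻¹ * ‖σ‖ := mul_le_mul_of_nonneg_right h h3.le
      _ = 1 := inv_mul_cancel₀ h3.ne'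
  have h5 : 2 < K₁ * (c2 * τ ^ q) := by
    rwa [div_lt_iff₀ (by positivity)] at hK₁
  have h6 : K₁ * (c2 * τ ^ q) ≤ k * (c2 * τ ^ q) :=
    mul_le_mul_of_nonneg_right hk (by positivity)
  have hk0 : 0 < k := by
    have : 0 < K₁ := lt_trans (by positivity) hK₁
    linarith
  have h7 : c2 * k * (τ ^ q / 2) ≤ c2 * k * ‖σ‖ :=
    mul_le_mul_of_nonneg_left (by linarith) (by positivity)
  nlinarith

theorem t_PT (h1 : S_BOOT) (h2 : S_GEOM) (h2' : S_GEOM3) (h3 : S_INIT) (_hA : S_ANA) : S_PT := by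
  intro d m q c₀ z₀ s b ρ ε C N₀ hPD hNF hb0 hOrb κ hκ hκ2
  obtain ⟨c₁, r₁, hc₁, hr₁, hgeom⟩ := h2 κ hκ
  obtain ⟨n₂, hn₂⟩ := h2' κ hκ hκ2
  have hpi := Real.pi_gt_three
  obtain ⟨β, hβ⟩ : ∃ β, β = ‖b c₀ z₀‖ := ⟨_, rfl⟩
  have hβ0 : 0 < β := hβ ▸ norm_pos_iff.mpr hb0
  obtain ⟨K, hK⟩ : ∃ K, K = Real.exp (2 * Real.pi) := ⟨_, rfl⟩
  have hK0 : 0 < K := hK ▸ Real.exp_pos _
  obtain ⟨c2, hc2⟩ : ∃ c2, c2 = β * c₁ / 4 := ⟨_, rfl⟩
  have hc20 : 0 < c2 := by rw [hc2]; positivity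
  obtain ⟨e0, he0, he1, he2⟩ : ∃ e0 : ℝ, 0 < e0 ∧ K * e0 ≤ c2 / 4 ∧ K * e0 ≤ β * κ / 8 := by
    refine ⟨min (c2 / 4) (β * κ / 8) / K, ?_, ?_, ?_⟩
    · have : 0 < min (c2 / 4) (β * κ / 8) := lt_min (by positivity) (by positivity)
      positivity
    · rw [mul_div_cancel₀ _ hK0.ne']
      exact min_le_left _ _
    · rw [mul_div_cancel₀ _ hK0.ne']
      exact min_le_right _ _
  have hC := hNF.hC
  have hρ := hNF.hρ
  obtain ⟨τ, hτ0, hτρ, hτC⟩ : ∃ τ : ℝ, 0 < τ ∧ τ ≤ ρ ∧ C * τ ≤ e0 := by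
    refine ⟨min ρ (e0 / (C + 1)), lt_min hρ (by positivity), min_le_left _ _, ?_⟩
    calc C * min ρ (e0 / (C + 1)) ≤ C * (e0 / (C + 1)) :=
          mul_le_mul_of_nonneg_left (min_le_right _ _) hC
      _ ≤ (C + 1) * (e0 / (C + 1)) := mul_le_mul_of_nonneg_right (by linarith) (by positivity)
      _ = e0 := mul_div_cancel₀ _ (by positivity)
  obtain ⟨K₁, hK₁⟩ := exists_nat_gt (2 / (c2 * τ ^ q))
  obtain ⟨η, hη, hη0⟩ : ∃ η : ℝ, K * η = c2 / 4 ∧ 0 < η :=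
    ⟨c2 / 4 / K, mul_div_cancel₀ _ hK0.ne', by positivity⟩
  obtain ⟨k₀, ε₂, hk₀, hε₂, hε₂', hinit⟩ := h3 d m q c₀ z₀ s b ρ ε C N₀ hPD hNF hOrb η K₁ hη0
  -- continuity of b
  have hca : ContinuousAt (fun p : ℂ × ℂ => b p.1 p.2) (c₀, z₀) :=
    (hNF.cont (c₀, z₀) ⟨mem_ball_self hNF.hε, mem_ball_self hNF.hε⟩).continuousAt
      (prod_mem_nhds (ball_mem_nhds _ hNF.hε) (ball_mem_nhds _ hNF.hε))
  obtain ⟨δb, hδb, hbc⟩ := Metric.continuousAt_iff.1 hca (β / 8) (by positivity)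
  obtain ⟨n₃, hn₃⟩ := exists_nat_gt (2 * Real.pi / r₁ + 8 * (c2 / 4) * k₀ / (β * κ) + 1)
  refine ⟨min ε₂ δb, max (max k₀ n₂) n₃, lt_min hε₂ hδb, (min_le_left _ _).trans hε₂', ?_⟩
  intro c hc α hα hG n hn x hx hL
  have hc' : c ∈ ball c₀ ε₂ := ball_subset_ball (min_le_left _ _) hc
  have hα' : α ∈ ball z₀ ε₂ := ball_subset_ball (min_le_left _ _) hα
  have hcε : c ∈ ball c₀ ε := ball_subset_ball hε₂' hc'
  have hαε : α ∈ ball z₀ ε := ball_subset_ball hε₂' hα'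
  have hbd : ‖b c α - b c₀ z₀‖ < β / 8 := by
    have := @hbc (c, α) (by
      rw [Prod.dist_eq]
      exact max_lt (lt_of_lt_of_le hc (min_le_right _ _)) (lt_of_lt_of_le hα (min_le_right _ _)))
    rwa [dist_eq_norm] at this
  have hb1 : β / 2 ≤ ‖b c α‖ := by
    have h := norm_sub_norm_le (b c₀ z₀) (b c α)
    rw [norm_sub_rev, ← hβ] at h
    linarith
  have hb2 : ‖b c α‖ ≤ 9 / 8 * β := by
    have h := norm_sub_norm_le (b c α) (b c₀ z₀)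
    rw [← hβ] at h
    linarith
  have hnk : k₀ ≤ n := (le_max_left _ _).trans ((le_max_left _ _).trans hn)
  have hnn₂ : n₂ ≤ n := (le_max_right _ _).trans ((le_max_left _ _).trans hn)
  have hnn₃ : n₃ ≤ n := (le_max_right _ _).trans hn
  have hnR : 2 * Real.pi / r₁ + 8 * (c2 / 4) * k₀ / (β * κ) + 1 < n :=
    lt_of_lt_of_le hn₃ (by exact_mod_cast hnn₃)
  have hq1 : 0 ≤ 2 * Real.pi / r₁ := by positivity
  have hq2 : 0 ≤ 8 * (c2 / 4) * k₀ / (β * κ) := by positivity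
  have hn0 : (0 : ℝ) < n := by linarith
  have hnorm : ‖x / n‖ = (2 * Real.pi - κ) / n := by
    rw [hx, norm_div, norm_mul, Complex.norm_real, Complex.norm_I, mul_one, Complex.norm_natCast,
      Real.norm_eq_abs, abs_of_pos (by linarith)]
  have hθ : ‖x / n‖ ≤ r₁ := by
    rw [hnorm, div_le_iff₀ hn0]
    have h4 : 2 * Real.pi / r₁ < n := by linarith
    rw [div_lt_iff₀ hr₁] at h4
    linarith
  have hLe : Lq d m q c α = 1 - x / n := by rw [← hL]; ring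
  have hkθ : ∀ k : ℕ, k ≤ n → (k : ℝ) * ‖x / n‖ ≤ 2 * Real.pi - κ := by
    intro k hk
    rw [hnorm]
    have h4 : (k : ℝ) ≤ n := by exact_mod_cast hk
    calc (k : ℝ) * ((2 * Real.pi - κ) / n) ≤ n * ((2 * Real.pi - κ) / n) :=
          mul_le_mul_of_nonneg_right h4 (div_nonneg (by linarith) hn0.le)
      _ = 2 * Real.pi - κ := mul_div_cancel₀ _ hn0.ne'
  let u : ℕ → ℂ := fun k => P d (N₀ + m * k) c - α
  obtain ⟨hu0, huρ, hT0⟩ := hinit c hc' α hα'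
  have hG1 : ∀ j, j ≤ n → ‖Lq d m q c α‖ ^ j ≤ K := by
    intro j hj
    have h4 : ‖Lq d m q c α‖ ≤ Real.exp ‖x / n‖ := by
      rw [hLe]
      calc ‖(1 : ℂ) - x / n‖ ≤ ‖(1 : ℂ)‖ + ‖x / n‖ := norm_sub_le _ _
        _ = ‖x / n‖ + 1 := by rw [norm_one]; ring
        _ ≤ Real.exp ‖x / n‖ := Real.add_one_le_exp _
    calc ‖Lq d m q c α‖ ^ j ≤ (Real.exp ‖x / n‖) ^ j := pow_le_pow_left₀ (norm_nonneg _) h4 j
      _ = Real.exp (j * ‖x / n‖) := (Real.exp_nat_mul _ _).symm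
      _ ≤ K := by
        rw [hK]
        exact Real.exp_le_exp.mpr ((hkθ j hj).trans (by linarith))
  have hsize : ∀ k, K₁ ≤ k → ‖u k‖ ≤ 2 * ρ → c2 * k ≤ ‖(s c α (u k))⁻¹‖ → ‖u k‖ ≤ τ := by
    intro k hk hu h
    exact small_of_large hc20 hτ0 hK₁ (by exact_mod_cast hk) (hNF.size c hcε α hαε (u k) hu).1 h
  have hboot := h1 n k₀ (fun k => (s c α (u k))⁻¹) (Lq d m q c α) (b c α) K (fun k => c2 * k)
    (fun _ => e0) (fun k => u k ≠ 0 ∧ ‖u k‖ ≤ ρ) hG1 (fun _ => he0.le) hnk ⟨hu0, huρ⟩ ?_ ?_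
    n hnk le_rfl
  · obtain ⟨⟨hun, hunρ⟩, -, hTn⟩ := hboot
    have hgs := hn₂ n hnn₂ x hx
    have hsn := hNF.size c hcε α hαε (u n) (by linarith)
    have hspos : 0 < ‖s c α (u n)‖ := by
      have : 0 < ‖u n‖ ^ q := pow_pos (norm_pos_iff.mpr hun) q
      linarith [hsn.1]
    have hsum : ∑ _j ∈ Finset.Ico k₀ n, e0 ≤ n * e0 := by
      rw [Finset.sum_const, Nat.card_Ico, nsmul_eq_mul]
      refine mul_le_mul_of_nonneg_right ?_ he0.le
      exact_mod_cast Nat.sub_le _ _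
    have hT0' : ‖(s c α (u k₀))⁻¹ + b c α * gs (Lq d m q c α) k₀‖ ≤ η * k₀ := hT0
    have hTn' : ‖(s c α (u n))⁻¹ + b c α * gs (Lq d m q c α) n‖ ≤ β * κ / 4 * n := by
      refine hTn.trans ?_
      have h4 : K * (‖(s c α (u k₀))⁻¹ + b c α * gs (Lq d m q c α) k₀‖ +
          ∑ _j ∈ Finset.Ico k₀ n, e0) ≤ K * (η * k₀ + n * e0) :=
        mul_le_mul_of_nonneg_left (add_le_add hT0' hsum) hK0.le
      refine h4.trans ?_
      have h5 : 8 * (c2 / 4) * k₀ / (β * κ) ≤ n := by linarith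
      rw [div_le_iff₀ (by positivity)] at h5
      have h6 : K * (η * k₀ + n * e0) = K * η * k₀ + K * e0 * n := by ring
      rw [h6, hη]
      have h7 : K * e0 * n ≤ β * κ / 8 * n := mul_le_mul_of_nonneg_right he2 hn0.le
      have h8 : c2 / 4 * k₀ ≤ β * κ / 8 * n := by linarith
      linarith
    have hbg : ‖b c α * gs (Lq d m q c α) n‖ ≤ 3 / 8 * (β * κ) * n := by
      rw [norm_mul, hLe]
      calc ‖b c α‖ * ‖gs (1 - x / n) n‖ ≤ 9 / 8 * β * (κ / 3 * n) :=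
            mul_le_mul hb2 hgs (norm_nonneg _) (by positivity)
        _ = 3 / 8 * (β * κ) * n := by ring
    have hT : ‖(s c α (u n))⁻¹‖ ≤ β * κ * n := by
      have h4 : (s c α (u n))⁻¹ = ((s c α (u n))⁻¹ + b c α * gs (Lq d m q c α) n) -
          b c α * gs (Lq d m q c α) n := by ring
      have h5 := norm_sub_le ((s c α (u n))⁻¹ + b c α * gs (Lq d m q c α) n)
        (b c α * gs (Lq d m q c α) n)
      rw [← h4] at h5
      have h6 : 0 < β * κ * n := by positivity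
      linarith
    rw [norm_inv] at hT
    rw [← hβ]
    calc (1 : ℝ) = ‖s c α (u n)‖⁻¹ * ‖s c α (u n)‖ := (inv_mul_cancel₀ hspos.ne').symm
      _ ≤ β * κ * n * ‖s c α (u n)‖ := mul_le_mul_of_nonneg_right hT hspos.le
  · -- the step
    rintro k hk hkn ⟨huk0, hukρ⟩ hh
    have hkK : K₁ ≤ k := hk₀.trans hk
    have hst := hNF.step c hcε α hαε hG (u k) huk0 hukρ
    have hu1 : G d m c (α + u k) = P d (N₀ + m * (k + 1)) c := by
      have : α + u k = P d (N₀ + m * k) c := by simp only [u]; ring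
      rw [this, ← P_add, mul_add, mul_one, add_assoc]
    rw [hu1] at hst
    obtain ⟨ha, hb', hd⟩ := hst
    have hku : ‖u k‖ ≤ τ := hsize k hkK (by linarith) hh
    refine ⟨?_, ?_⟩
    · refine hd.trans (le_trans ?_ hτC)
      exact mul_le_mul_of_nonneg_left hku hC
    · intro hh'
      have h5 : ‖u (k + 1)‖ ≤ 2 * ρ := ha.trans (by linarith)
      refine ⟨sub_ne_zero.mpr hb', ?_⟩
      have h6 := hsize (k + 1) (by omega) h5 (by exact_mod_cast hh')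
      linarith
  · -- the profile
    intro k hk hkn
    have hkR : (k₀ : ℝ) ≤ k := by exact_mod_cast hk
    have hk0' : (0 : ℝ) ≤ k₀ := Nat.cast_nonneg _
    have hsum : ∑ _j ∈ Finset.Ico k₀ k, e0 ≤ k * e0 := by
      rw [Finset.sum_const, Nat.card_Ico, nsmul_eq_mul]
      refine mul_le_mul_of_nonneg_right ?_ he0.le
      exact_mod_cast Nat.sub_le _ _
    have hT0' : ‖(s c α (u k₀))⁻¹ + b c α * gs (Lq d m q c α) k₀‖ ≤ η * k₀ := hT0
    have h4 : K * (‖(s c α (u k₀))⁻¹ + b c α * gs (Lq d m q c α) k₀‖ +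
        ∑ _j ∈ Finset.Ico k₀ k, e0) ≤ K * (η * k₀ + k * e0) :=
      mul_le_mul_of_nonneg_left (add_le_add hT0' hsum) hK0.le
    have h6 : K * (η * k₀ + k * e0) = K * η * k₀ + K * e0 * k := by ring
    have h7 : K * e0 * k ≤ c2 / 4 * k := mul_le_mul_of_nonneg_right he1 (by linarith)
    have h8 : c2 / 4 * k₀ ≤ c2 / 4 * k := mul_le_mul_of_nonneg_left hkR (by positivity)
    have h9 : c₁ * k ≤ ‖gs (Lq d m q c α) k‖ := by
      rw [hLe]
      exact hgeom (x / n) hθ k (hkθ k hkn)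
    have h10 : β / 2 * (c₁ * k) ≤ ‖b c α * gs (Lq d m q c α) k‖ := by
      rw [norm_mul]
      exact mul_le_mul hb1 h9 (by positivity) (norm_nonneg _)
    have h11 : β / 2 * (c₁ * k) = 2 * c2 * k := by rw [hc2]; ring
    have h12 : 0 ≤ c2 * k := mul_nonneg hc20.le (by linarith)
    rw [h6, hη] at h4
    linarith

end Pool.Agent.Y70.PC
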